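import Pool.Agent.H31.Lop

set_option autoImplicit false
open Finset Pool.Agent.H31.AccDefs

namespace Pool.Agent.Results.MP_ef0d97_co.Cubic

/-- The permutations preserving `F` act transitively. -/
def VT {n : ℕ} (F : Finset (Finset (Fin n))) : Prop :=
  ∀ a b, ∃ π : Equiv.Perm (Fin n), F.image (·.map π.toEmbedding) = F ∧ π a = b

/-- The least size of a vertex-transitive blocking family. -/
noncomputable def v (n : ℕ) : ℕ := sInf {m | ∃ F : Finset (Finset (Fin n)), Blocks F ∧ VT F ∧ #F = m}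

theorem up (m : ℕ) : ∃ F : Finset (Finset (Fin (m + 4))), Blocks F ∧ VT F ∧ #F ≤ (m + 4) ^ 3 := by
  refine ⟨univ.filter fun X => #X = 4 ∧ ∃ i ∈ X, i + 1 ∈ X, ⟨fun X hX => (mem_filter.mp hX).2.1,
    fun σ h => ?_⟩, fun a b => ⟨Equiv.addRight (b - a), eq_of_subset_of_card_le (image_subset_iff.mpr ?_)
      (card_image_of_injective _ (map_injective _)).ge, by simp⟩, ?_⟩
  · have r : ∀ i : Fin (m + 4), (i + 1).1 = i + 1 ∨ ((i + 1).1 = 0 ∧ i.1 = m + 3) := fun i => by
      rw [Fin.val_add_one]; split_ifs with c <;> simp [c]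
    have key : ∀ i j : Fin (m + 4), i ≠ j → i + 1 ≠ j → i ≠ j + 1 →
        σ.symm 0 ∈ ({i, i + 1, j, j + 1} : Finset _) → σ.symm (0 + 1) ∈ ({i, i + 1, j, j + 1} : Finset _) →
        False := fun i j a1 a2 a3 a4 a5 => by
      have a6 : ∀ i : Fin (m + 4), i ≠ i + 1 := fun i => by simp
      refine h i j (by simp [a1, a2, a3, a1.symm, a2.symm, a3.symm]) (mem_filter.mpr ⟨mem_univ _, ?_, 0, ?_, ?_⟩)
      · rw [card_union_of_disjoint (by simp [a1, a2, a3, a1.symm, a2.symm, a3.symm]), card_pair (by simp),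
          card_pair (by simp)]
      · simp only [mem_insert, mem_singleton, Equiv.symm_apply_eq, mem_union, finRotate_succ_apply] at a4 ⊢
        tauto
      · simp only [mem_insert, mem_singleton, Equiv.symm_apply_eq, mem_union, finRotate_succ_apply] at a5 ⊢
        tauto
    have ne : σ.symm 0 ≠ σ.symm (0 + 1) := by simp
    generalize σ.symm 0 = s, σ.symm (0 + 1) = t at key ne
    have q : ∀ s : Fin (m + 4), s ≠ s + 1 + 1 ∧ s + 1 ≠ s + 1 + 1 ∧ s ≠ s + 1 + 1 + 1 := fun s => by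
      have := r s; have := r (s + 1); have := r (s + 1 + 1)
      simp only [ne_eq, Fin.ext_iff]; omega
    by_cases c : s + 1 = t
    · exact key s _ (q s).1 (q s).2.1 (q s).2.2 (by simp) (by simp [c])
    by_cases d : s = t + 1
    · exact key t _ (q t).1 (q t).2.1 (q t).2.2 (by simp [d]) (by simp)
    · exact key s t ne c d (by simp) (by simp)
  · intro X hX
    obtain ⟨-, h1, i, h2, h3⟩ := mem_filter.mp hX
    refine mem_filter.mpr ⟨mem_univ _, by simpa using h1, i + (b - a), mem_map_of_mem _ h2, ?_⟩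
    rw [add_right_comm]; exact mem_map_of_mem _ h3
  · refine (card_le_card (t := (univ : Finset (Fin (m + 4) × Fin (m + 4) × Fin (m + 4))).image
      fun z => {z.1, z.1 + 1, z.2.1, z.2.2}) fun X hX => ?_).trans (card_image_le.trans (by simp [pow_three]))
    obtain ⟨-, h1, i, h2, h3⟩ := mem_filter.mp hX
    have h4 : i + 1 ∈ X.erase i := by simpa using h3
    obtain ⟨x, y, -, e⟩ := card_eq_two.mp (show #((X.erase i).erase (i + 1)) = 2 by
      rw [card_erase_of_mem h4, card_erase_of_mem h2, h1])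
    exact mem_image.mpr ⟨(i, x, y), mem_univ _, by rw [← e, insert_erase h4, insert_erase h2]⟩

theorem result (n : ℕ) (hn : 6 ≤ n) : n ^ 3 < 1600000 * v n ∧ v n ≤ n ^ 3 := by
  obtain ⟨m, rfl⟩ := Nat.exists_eq_add_of_le' (show 4 ≤ n by omega)
  obtain ⟨G, g1, g2, g3⟩ := up m
  refine ⟨?_, (Nat.sInf_le (by exact ⟨G, g1, g2, rfl⟩)).trans g3⟩
  obtain ⟨F, h, t, e⟩ := Nat.sInf_mem (s := {k | ∃ F : Finset (Finset (Fin (m + 4))), Blocks F ∧ VT F ∧ #F = k})
    ⟨_, G, g1, g2, rfl⟩
  rw [v, ← e]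
  obtain ⟨a, ha⟩ := H31.Lop.main hn h
  have : ∑ b : Fin (m + 4), #(F.filter (b ∈ ·)) = #F * 4 := by
    simp only [card_filter]
    rw [sum_comm]
    exact sum_const_nat fun X hX => by simp [h.1 X hX]
  have := this ▸ card_nsmul_le_sum univ _ (#(F.filter (a ∈ ·))) fun b _ => by
    obtain ⟨π, p1, rfl⟩ := t a b
    refine card_le_card_of_injOn (·.map π.toEmbedding) (fun X hX => ?_) (map_injective _).injOn
    obtain ⟨x1, x2⟩ := mem_filter.mp (mem_coe.mp hX)
    exact mem_coe.mpr (mem_filter.mpr ⟨p1 ▸ mem_image_of_mem _ x1, by simpa using x2⟩)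
  simp only [card_univ, Fintype.card_fin, smul_eq_mul] at this
  nlinarith

end Pool.Agent.Results.MP_ef0d97_co.Cubic
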